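import Mathlib
import Pool.Agent.H481R3.CGD

set_option autoImplicit false

/-!
# The multiplier algebra of `L^p(G)`, `G` compact abelian, has the spectral permanence property

If `T` is a multiplier which is not a topological divisor of zero in the multiplier algebra, say
`c ‖S‖ ≤ ‖T S‖` for all multipliers `S`, then applying this to `S = T⁻¹ F`, `F` a trigonometric
polynomial close to a positive approximate unit, one finds `c ‖f‖ ≤ ‖T f‖` for all `f` in `L^p(G)`,
and then `T` is invertible.
-/

namespace Pool.Agent.Results.MP_d09f5b_an.SpectralPermanence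

open MeasureTheory Topology
open scoped ENNReal

universe u v

section space
variable {G : Type u} [MeasurableSpace G] (μ : Measure G) (p : ℝ≥0∞) [Fact (1 ≤ p)]

/-- The Banach space `L^p(G)` of complex functions. -/
def LpG : Type u := Lp ℂ p μ

noncomputable instance instGroup : NormedAddCommGroup (LpG μ p) :=
  @Lp.instNormedAddCommGroup G ℂ _ p μ _ _

noncomputable instance instSpace : NormedSpace ℂ (LpG μ p) :=
  @Lp.instNormedSpace G ℂ _ p μ _ ℂ _ _ _

/-- The bounded linear operators on `L^p(G)`, with composition and the operator norm. -/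
def Op : Type u := LpG μ p →L[ℂ] LpG μ p

noncomputable instance instOpRing : NormedRing (Op μ p) :=
  @ContinuousLinearMap.toNormedRing ℂ (LpG μ p) _ _ _

noncomputable instance instOpAlg : NormedAlgebra ℂ (Op μ p) :=
  @ContinuousLinearMap.toNormedAlgebra ℂ (LpG μ p) _ _ _

end space

section defs
variable {G : Type u} [CommGroup G] [TopologicalSpace G] [IsTopologicalGroup G]
  [MeasurableSpace G] [BorelSpace G] (μ : Measure G) [μ.IsHaarMeasure]
  (p : ℝ≥0∞) [Fact (1 ≤ p)]

/-- The operator of translation by `x`: `(translation x g)(y) = g (x y)`. -/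
noncomputable def translation (x : G) : Op μ p :=
  (Lp.compMeasurePreservingₗᵢ ℂ (fun y => x * y)
    (measurePreserving_mul_left μ x)).toContinuousLinearMap

/-- The multiplier algebra `M(L^p(G))`: all bounded operators on `L^p(G)` commuting with all
translations, with composition and the operator norm. -/
noncomputable def MultiplierAlgebra : Subalgebra ℂ (Op μ p) :=
  Subalgebra.centralizer ℂ (Set.range (translation μ p))

end defs

/-- The unital complex topological algebra `A` has the spectral permanence property: for every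
commutative unital Banach algebra `B` and every unital homomorphism `j : A → B` which is a
homeomorphism onto its image (in particular for every isometric embedding, that is when `A` is a
closed subalgebra of `B`), the spectrum of `j x` in `B` is the spectrum of `x` in `A`. -/
def HasSpectralPermanence (A : Type u) [Ring A] [Algebra ℂ A] [TopologicalSpace A] : Prop :=
  ∀ (B : Type v) [NormedCommRing B] [NormedAlgebra ℂ B] [CompleteSpace B] (j : A →ₐ[ℂ] B),
    IsEmbedding j → ∀ x : A, spectrum ℂ (j x) = spectrum ℂ x

section transfer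
variable {G : Type u} [CommGroup G] [TopologicalSpace G] [IsTopologicalGroup G]
  [CompactSpace G] [T2Space G] [MeasurableSpace G] [BorelSpace G] (μ : Measure G)
  [μ.IsHaarMeasure] [μ.Regular] [IsProbabilityMeasure μ] (p : ℝ≥0∞) [Fact (1 ≤ p)]

theorem mem_of_mem_MM (T : Lp ℂ p μ →L[ℂ] Lp ℂ p μ) (hT : T ∈ Pool.Agent.H481R3.CG.MM μ p) :
    @Membership.mem (Op μ p) _ _ (MultiplierAlgebra μ p) T := by
  refine (Subalgebra.mem_centralizer_iff (A := Op μ p) ℂ (z := T)).2 ?_
  rintro _ ⟨x, rfl⟩
  exact ContinuousLinearMap.ext (fun g => (hT x g).symm)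

theorem mem_MM_of_mem (T : Op μ p) (hT : T ∈ MultiplierAlgebra μ p) :
    (T : Lp ℂ p μ →L[ℂ] Lp ℂ p μ) ∈ Pool.Agent.H481R3.CG.MM μ p := by
  unfold MultiplierAlgebra at hT
  rw [Subalgebra.mem_centralizer_iff] at hT
  intro x g
  have h := hT _ ⟨x, rfl⟩
  exact (DFunLike.congr_fun (F := Lp ℂ p μ →L[ℂ] Lp ℂ p μ) h g).symm

/-- the identification of the two descriptions of the multiplier algebra -/
noncomputable def ident : Pool.Agent.H481R3.CG.MM μ p ≃ₐ[ℂ] MultiplierAlgebra μ p where
  toFun T := ⟨(T : Lp ℂ p μ →L[ℂ] Lp ℂ p μ), mem_of_mem_MM μ p _ T.2⟩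
  invFun T := ⟨(T : Op μ p), mem_MM_of_mem μ p _ T.2⟩
  left_inv _ := rfl
  right_inv _ := rfl
  map_mul' _ _ := rfl
  map_add' _ _ := rfl
  commutes' _ := rfl

theorem ident_isEmbedding : IsEmbedding (ident μ p) := by
  refine IsEmbedding.of_leftInverse (f := (ident μ p).symm) (fun T => rfl) ?_ ?_
  · exact Continuous.subtype_mk (continuous_subtype_val (X := Op μ p)) _
  · exact Continuous.subtype_mk (continuous_subtype_val (X := Lp ℂ p μ →L[ℂ] Lp ℂ p μ)) _

end transfer

/-- For every compact abelian group `G` with normalised Haar measure `μ` and every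
`1 ≤ p < ∞`, the algebra of all bounded operators on `L^p(G)` commuting with all
translations has the spectral permanence property. -/
theorem result (G : Type u) [CommGroup G] [TopologicalSpace G] [IsTopologicalGroup G]
    [CompactSpace G] [T2Space G] [MeasurableSpace G] [BorelSpace G]
    (μ : Measure G) [μ.IsHaarMeasure] [μ.Regular] [IsProbabilityMeasure μ]
    (p : ℝ≥0∞) [Fact (1 ≤ p)] (hp : p ≠ ∞) :
    HasSpectralPermanence.{u, v} (MultiplierAlgebra μ p) := by
  intro B _ _ _ j hj x
  have h1 : IsEmbedding (j.comp (ident μ p).toAlgHom) := hj.comp (ident_isEmbedding μ p)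
  have h2 := Pool.Agent.H481R3.CG.spectral_permanence μ p hp B
    (j.comp (ident μ p).toAlgHom) h1 ((ident μ p).symm x)
  rw [AlgEquiv.spectrum_eq (ident μ p).symm x] at h2
  rw [← h2]
  congr 1

end Pool.Agent.Results.MP_d09f5b_an.SpectralPermanence
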